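import Pool.Agent.L0h93.Karp.E.Facts

set_option autoImplicit false

/-! # Hub facts for two blocks -/

namespace Pool.Agent.L0h93.Karp.E

open Finset
open Pool.Agent.H119R2.Kp
open Pool.Agent.L0h93.Karp (hv_dual)

/-- the complete bipartite graph between the even and the odd numbers -/
def HB (m : ℕ) : SimpleGraph (ZMod m) where
  Adj a b := ¬ (Even a.val ↔ Even b.val)
  symm := ⟨fun a b h h' => h h'.symm⟩
  loopless := ⟨fun a h => h Iff.rfl⟩

open FA in
/-- two cliques -/
theorem hub2 {n q : ℕ} {P : SimpleGraph (Fin n) → Prop} (hP : GP n q P) (hS : Star n P)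
    (p y r : ℕ) [Fact p.Prime] (hp : 3 < p) (hy : 0 < y) (hn : 2 * y + r + 11 * p = n)
    (hq : q < 11 * p * (2 * y) + 55 * p * p)
    (h : hv P ![y, y, r + 11 * p] (pat [(0, 0), (1, 1), (2, 2)]) = 1) :
    hv P ![y, y, r, 11 * p] (pat [(0, 0), (1, 1), (2, 2), (2, 3)]) = 1 := by
  haveI : NeZero (2 * y) := ⟨by omega⟩
  haveI : NeZero p := ⟨(Fact.out : p.Prime).ne_zero⟩
  have hK : PV P _ (GG p (2 * y) r (HH (2 * y)) ⊤) := by
    refine of_hv hP _ _ (clE 2 (fun a => if Even a.val then 0 else 1) 2) ?_ _ ?_ h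
    · intro i
      rw [sum_clE, sum_par]
      fin_cases i <;> simp [add_comm]
    · rintro (u | u | u) (v | v | v) huv h1
      · exact fun hc => huv (by rw [hc])
      · simp only [clE, pat] at h1
        split_ifs at h1 <;> simp at h1
      · trivial
      · simp only [clE, pat] at h1
        split_ifs at h1 <;> simp at h1
      · refine ⟨fun hc => huv (by rw [hc]), ?_⟩
        simp only [clE, pat] at h1
        by_cases hu : Even u.val <;> by_cases hv : Even v.val <;> simp [hu, hv] at h1 ⊢
      · simp only [clE, pat] at h1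
        split_ifs at h1 <;> simp at h1
      · trivial
      · simp only [clE, pat] at h1
        split_ifs at h1 <;> simp at h1
      · exact fun hc => huv (by rw [hc])
  have h2 := hubH hP hS p (2 * y) r hp (by omega) hn hq (HH (2 * y)) (by
    intro a b hab
    refine ⟨fun hc => hab.1 (add_right_cancel hc), ?_⟩
    rw [even_succ, even_succ, hab.2]) hK
  refine to_hv hP _ _ (clE 3 (fun a => if Even a.val then 0 else 1) 2) ?_ _ ?_ h2
  · intro i
    rw [sum_clE, sum_par]
    fin_cases i <;> simp
  · rintro (u | u | u) (v | v | v) huv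
    · exact absurd huv (by simp [GG])
    · exact absurd huv (by simp [GG])
    · simp [clE, pat]
    · exact absurd huv (by simp [GG])
    · obtain ⟨_, h3⟩ := huv
      simp only [clE, pat]
      by_cases hu : Even u.val
      · simp [hu, h3.mp hu]
      · have hv : ¬ Even v.val := fun hc => hu (h3.mpr hc)
        simp [hu, hv]
    · exact absurd huv (by simp [GG])
    · simp [clE, pat]
    · exact absurd huv (by simp [GG])
    · simp [clE, pat]

open FA in
/-- a complete bipartite graph -/
theorem hubB {n q : ℕ} {P : SimpleGraph (Fin n) → Prop} (hP : GP n q P) (hS : Star n P)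
    (p y r : ℕ) [Fact p.Prime] (hp : 3 < p) (hy : 0 < y) (hn : 2 * y + r + 11 * p = n)
    (hq : q < 11 * p * (2 * y) + 55 * p * p)
    (h : hv P ![y, y, r + 11 * p] (pat [(0, 1), (2, 2)]) = 1) :
    hv P ![y, y, r, 11 * p] (pat [(0, 1), (2, 2), (2, 3)]) = 1 := by
  haveI : NeZero (2 * y) := ⟨by omega⟩
  haveI : NeZero p := ⟨(Fact.out : p.Prime).ne_zero⟩
  have hK : PV P _ (GG p (2 * y) r (HB (2 * y)) ⊤) := by
    refine of_hv hP _ _ (clE 2 (fun a => if Even a.val then 0 else 1) 2) ?_ _ ?_ h
    · intro i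
      rw [sum_clE, sum_par]
      fin_cases i <;> simp [add_comm]
    · rintro (u | u | u) (v | v | v) huv h1
      · exact fun hc => huv (by rw [hc])
      · simp only [clE, pat] at h1
        split_ifs at h1 <;> simp at h1
      · trivial
      · simp only [clE, pat] at h1
        split_ifs at h1 <;> simp at h1
      · simp only [clE, pat] at h1
        change ¬ (Even u.val ↔ Even v.val)
        by_cases hu : Even u.val <;> by_cases hv : Even v.val <;> simp [hu, hv] at h1 ⊢
      · simp only [clE, pat] at h1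
        split_ifs at h1 <;> simp at h1
      · trivial
      · simp only [clE, pat] at h1
        split_ifs at h1 <;> simp at h1
      · exact fun hc => huv (by rw [hc])
  have h2 := hubH hP hS p (2 * y) r hp (by omega) hn hq (HB (2 * y)) (by
    intro a b hab
    change ¬ (Even (a + 1).val ↔ Even (b + 1).val)
    rw [even_succ, even_succ]
    intro h
    exact hab (not_iff_not.1 h)) hK
  refine to_hv hP _ _ (clE 3 (fun a => if Even a.val then 0 else 1) 2) ?_ _ ?_ h2
  · intro i
    rw [sum_clE, sum_par]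
    fin_cases i <;> simp
  · rintro (u | u | u) (v | v | v) huv
    · exact absurd huv (by simp [GG])
    · exact absurd huv (by simp [GG])
    · simp [clE, pat]
    · exact absurd huv (by simp [GG])
    · have h3 : ¬ (Even u.val ↔ Even v.val) := huv
      simp only [clE, pat]
      by_cases hu : Even u.val <;> by_cases hv : Even v.val <;> simp [hu, hv] at h3 ⊢
    · exact absurd huv (by simp [GG])
    · simp [clE, pat]
    · exact absurd huv (by simp [GG])
    · simp [clE, pat]

/-- the dual of `hub11` -/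
theorem cohub11 {n q : ℕ} {P : SimpleGraph (Fin n) → Prop} (hP : GP n q P) (hS : Star n P)
    (p y r : ℕ) [Fact p.Prime] (hp : 3 < p) (hy : 0 < y) (hn : y + r + 11 * p = n)
    (hq : q < 11 * p * y + 55 * p * p)
    (h : hv P ![y, r + 11 * p] (pat [(0, 1)]) = 0) :
    hv P ![y, r, 11 * p] (pat [(0, 1), (0, 2), (2, 2)]) = 0 := by
  have h1 := hv_dual hP ![y, r + 11 * p] (by simp [Fin.sum_univ_succ]; omega)
    (pat [(0, 0), (1, 1)]) (pat [(0, 1)]) (by decide)
  have h2 := hv_dual hP ![y, r, 11 * p] (by simp [Fin.sum_univ_succ]; omega)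
    (pat [(0, 0), (1, 1), (1, 2)]) (pat [(0, 1), (0, 2), (2, 2)]) (by decide)
  rw [h, sub_zero] at h1
  rw [hub11 hP.dual' hS.dual' p y r hp hy hn hq h1] at h2
  omega

/-- the dual of `hub2`: the complement of two cliques is a complete bipartite graph -/
theorem cohub2 {n q : ℕ} {P : SimpleGraph (Fin n) → Prop} (hP : GP n q P) (hS : Star n P)
    (p y r : ℕ) [Fact p.Prime] (hp : 3 < p) (hy : 0 < y) (hn : 2 * y + r + 11 * p = n)
    (hq : q < 11 * p * (2 * y) + 55 * p * p)
    (h : hv P ![y, y, r + 11 * p] (pat [(0, 1), (0, 2), (1, 2)]) = 0) :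
    hv P ![y, y, r, 11 * p] (pat [(0, 1), (0, 2), (1, 2), (0, 3), (1, 3), (3, 3)]) = 0 := by
  have h1 := hv_dual hP ![y, y, r + 11 * p] (by simp [Fin.sum_univ_succ]; omega)
    (pat [(0, 0), (1, 1), (2, 2)]) (pat [(0, 1), (0, 2), (1, 2)]) (by decide)
  have h2 := hv_dual hP ![y, y, r, 11 * p] (by simp [Fin.sum_univ_succ]; omega)
    (pat [(0, 0), (1, 1), (2, 2), (2, 3)])
    (pat [(0, 1), (0, 2), (1, 2), (0, 3), (1, 3), (3, 3)]) (by decide)
  rw [h, sub_zero] at h1
  rw [hub2 hP.dual' hS.dual' p y r hp hy hn hq h1] at h2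
  omega

/-- the dual of `hubB`: the complement of a complete bipartite graph is two cliques -/
theorem cohubB {n q : ℕ} {P : SimpleGraph (Fin n) → Prop} (hP : GP n q P) (hS : Star n P)
    (p y r : ℕ) [Fact p.Prime] (hp : 3 < p) (hy : 0 < y) (hn : 2 * y + r + 11 * p = n)
    (hq : q < 11 * p * (2 * y) + 55 * p * p)
    (h : hv P ![y, y, r + 11 * p] (pat [(0, 0), (1, 1), (0, 2), (1, 2)]) = 0) :
    hv P ![y, y, r, 11 * p] (pat [(0, 0), (1, 1), (0, 2), (1, 2), (0, 3), (1, 3), (3, 3)]) = 0 := by
  have h1 := hv_dual hP ![y, y, r + 11 * p] (by simp [Fin.sum_univ_succ]; omega)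
    (pat [(0, 1), (2, 2)]) (pat [(0, 0), (1, 1), (0, 2), (1, 2)]) (by decide)
  have h2 := hv_dual hP ![y, y, r, 11 * p] (by simp [Fin.sum_univ_succ]; omega)
    (pat [(0, 1), (2, 2), (2, 3)])
    (pat [(0, 0), (1, 1), (0, 2), (1, 2), (0, 3), (1, 3), (3, 3)]) (by decide)
  rw [h, sub_zero] at h1
  rw [hubB hP.dual' hS.dual' p y r hp hy hn hq h1] at h2
  omega

end Pool.Agent.L0h93.Karp.E
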