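import Pool.Agent.Y46.Kc.Top

set_option autoImplicit false

/-!
# A sum over the sets of classes modulo 11
-/

namespace Pool.Agent.L0h93.Karp.E

open Finset
open Pool.Agent.Y46.Kc (sum_fixed fc_pow)

/-- rotation of the 66 classes -/
def rho : Equiv.Perm (Fin 66) :=
  ⟨fun i => ⟨(i.val / 11) * 11 + (i.val % 11 + 1) % 11,
      by omega⟩,
    fun i => ⟨(i.val / 11) * 11 + (i.val % 11 + 10) % 11, by omega⟩, by decide +kernel,
      by decide +kernel⟩

/-- the unions of the six orbits -/
def GO (t : Bool × (Fin 5 → Bool)) : Finset (Fin 66) :=
  univ.filter fun i => (if h : i.val < 11 then t.1 else t.2 ⟨i.val / 11 - 1, by omega⟩) = true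

theorem mem_GO (t : Bool × (Fin 5 → Bool)) (i : Fin 66) :
    i ∈ GO t ↔ (if h : i.val < 11 then t.1 else t.2 ⟨i.val / 11 - 1, by omega⟩) = true := by
  unfold GO
  simp

theorem mem_fc (π : Equiv.Perm (Fin 66)) (I : Finset (Fin 66)) (j : Fin 66) :
    π j ∈ π.finsetCongr I ↔ j ∈ I := by
  rw [Equiv.finsetCongr_apply, Finset.mem_map_equiv, Equiv.symm_apply_apply]

/-- the first class of the orbit -/
def rep (i : Fin 66) : Fin 66 := ⟨i.val / 11 * 11, by omega⟩

theorem rep_rho : ∀ i : Fin 66, ∃ e : Fin 11, (rho ^ e.val) (rep i) = i := by
  decide +kernel

theorem fixed (I : Finset (Fin 66)) (h : rho.finsetCongr I = I) :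
    GO (decide ((0 : Fin 66) ∈ I), fun j => decide ((⟨(j.val + 1) * 11, by omega⟩ : Fin 66) ∈ I))
      = I := by
  have h1 : ∀ i : Fin 66, rho i ∈ I ↔ i ∈ I := by
    intro i
    have := mem_fc rho I i
    rwa [h] at this
  have h2 : ∀ (e : ℕ) (i : Fin 66), (rho ^ e) i ∈ I ↔ i ∈ I := by
    intro e
    induction e with
    | zero => intro i; simp
    | succ e ih => intro i; rw [pow_succ', Equiv.Perm.mul_apply, h1, ih]
  ext i
  obtain ⟨e, he⟩ := rep_rho i
  have h3 : i ∈ I ↔ rep i ∈ I := by
    conv_lhs => rw [← he]
    exact h2 _ _
  rw [mem_GO, h3]
  by_cases hi : i.val < 11
  · rw [dif_pos hi]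
    have h4 : rep i = 0 := by
      ext
      simp only [rep, Fin.val_zero]
      omega
    rw [h4, decide_eq_true_eq]
  · rw [dif_neg hi]
    have h4 : (⟨((⟨i.val / 11 - 1, by omega⟩ : Fin 5).val + 1) * 11, by simp only; omega⟩ :
        Fin 66) = rep i := by
      ext
      simp only [rep]
      omega
    simp only [h4, decide_eq_true_eq]

theorem rho_div : ∀ i : Fin 66, (rho i).val / 11 = i.val / 11 := by
  decide +kernel

theorem fixed_GO (t : Bool × (Fin 5 → Bool)) : rho.finsetCongr (GO t) = GO t := by
  ext j
  obtain ⟨i, rfl⟩ := rho.surjective j
  rw [mem_fc, mem_GO, mem_GO]
  have h := rho_div i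
  by_cases hi : i.val < 11
  · have h2 : (rho i).val < 11 := by omega
    rw [dif_pos hi, dif_pos h2]
  · have h2 : ¬ (rho i).val < 11 := by omega
    rw [dif_neg hi, dif_neg h2]
    have h3 : (⟨i.val / 11 - 1, by omega⟩ : Fin 5) = ⟨(rho i).val / 11 - 1, by omega⟩ := by
      ext
      simp only [h]
    rw [h3]

theorem GO_inj : Function.Injective GO := by
  intro t t' h
  have h0 : (0 : Fin 66) ∈ GO t ↔ (0 : Fin 66) ∈ GO t' := by rw [h]
  rw [mem_GO, mem_GO, dif_pos (by decide), dif_pos (by decide)] at h0
  have h5 : ∀ j : Fin 5, t.2 j = t'.2 j := by
    intro j
    have h6 : (⟨(j.val + 1) * 11, by omega⟩ : Fin 66) ∈ GO t ↔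
        (⟨(j.val + 1) * 11, by omega⟩ : Fin 66) ∈ GO t' := by rw [h]
    rw [mem_GO, mem_GO, dif_neg (by simp only; omega), dif_neg (by simp only; omega)] at h6
    have h7 : (⟨(⟨(j.val + 1) * 11, by omega⟩ : Fin 66).val / 11 - 1, by simp only; omega⟩ : Fin 5)
        = j := by
      ext
      simp only
      omega
    rw [h7] at h6
    exact Bool.eq_iff_iff.2 h6
  exact Prod.ext (Bool.eq_iff_iff.2 h0) (funext h5)

theorem card_fc (π : Equiv.Perm (Fin 66)) (I : Finset (Fin 66)) :
    (π.finsetCongr I).card = I.card := by
  rw [Equiv.finsetCongr_apply, Finset.card_map]

/-- number of the orbits -/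
def nb (t : Bool × (Fin 5 → Bool)) : ℕ :=
  t.1.toNat + ((t.2 0).toNat + (t.2 1).toNat + (t.2 2).toNat + (t.2 3).toNat + (t.2 4).toNat)

theorem card_GO (t : Bool × (Fin 5 → Bool)) : (GO t).card = 11 * nb t := by
  revert t
  decide +kernel

/-- five bits -/
def e5 : (Bool × Bool × Bool × Bool × Bool) ≃ (Fin 5 → Bool) where
  toFun t := ![t.1, t.2.1, t.2.2.1, t.2.2.2.1, t.2.2.2.2]
  invFun T := (T 0, T 1, T 2, T 3, T 4)
  left_inv := by
    rintro ⟨a, b, c, d, e⟩
    rfl
  right_inv := by
    intro T
    ext j
    fin_cases j <;> rfl

/-- the relation modulo 11 -/
theorem sum_mod (f : Finset (Fin 66) → ℤ) (hrot : ∀ I, f (rho.finsetCongr I) = f I)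
    (hsum : ∑ I : Finset (Fin 66), (-1 : ℤ) ^ I.card * f I = 0) (h01 : ∀ I, f I = 0 ∨ f I = 1)
    (h1 : ∀ T, f (GO (true, T)) = 1)
    (hmul : ∀ T : Fin 5 → Bool, f (GO (false, fun j => T (j + 1))) = f (GO (false, T)))
    (hmono : ∀ T T' : Fin 5 → Bool, (∀ j, T j = true → T' j = true) →
      f (GO (false, T)) ≤ f (GO (false, T')))
    (h5 : f (GO (false, fun _ => true)) = 1) : f (GO (false, fun _ => false)) = 1 := by
  have hp : Fact (Nat.Prime 11) := ⟨by norm_num⟩
  have hf := sum_fixed (rho.finsetCongr : Equiv.Perm (Finset (Fin 66))) 11 1 (by
    intro I
    rw [fc_pow]
    have h5 : rho ^ (11 ^ 1) = 1 := by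
      ext i
      revert i
      decide +kernel
    rw [h5]
    ext x
    rw [Equiv.finsetCongr_apply, Finset.mem_map_equiv]
    exact Iff.rfl) (fun I => (-1 : ℤ) ^ I.card * f I) (by
    intro I
    simp only [card_fc, hrot])
  rw [hsum] at hf
  have hfil : (univ.filter fun I : Finset (Fin 66) =>
      (rho.finsetCongr : Equiv.Perm (Finset (Fin 66))) I = I) = univ.image GO := by
    ext I
    rw [mem_filter, mem_image]
    constructor
    · rintro ⟨_, h⟩
      exact ⟨_, mem_univ _, fixed I h⟩
    · rintro ⟨t, _, rfl⟩
      exact ⟨mem_univ _, fixed_GO t⟩
  rw [hfil, sum_image (fun a _ b _ h => GO_inj h)] at hf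
  have hc : ∀ t : Bool × (Fin 5 → Bool), (-1 : ℤ) ^ (GO t).card = (-1 : ℤ) ^ nb t := by
    intro t
    rw [card_GO, pow_mul]
    norm_num
  simp only [hc] at hf
  set F : Bool → Bool → Bool → Bool → Bool → ℤ := fun a b c d e =>
    f (GO (false, ![a, b, c, d, e])) with hF
  rw [Fintype.sum_prod_type, Fintype.sum_bool] at hf
  simp only [h1, mul_one] at hf
  rw [← e5.sum_comp, ← e5.sum_comp] at hf
  simp only [Fintype.sum_prod_type, Fintype.sum_bool] at hf
  have r1 : ∀ a b c d e, F b c d e a = F a b c d e := by
    intro a b c d e
    have := hmul ![a, b, c, d, e]
    have h2 : (fun j : Fin 5 => (![a, b, c, d, e] : Fin 5 → Bool) (j + 1)) = ![b, c, d, e, a] := by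
      ext j
      fin_cases j <;> rfl
    rw [h2] at this
    exact this
  have r2 : ∀ a b c d e, F c d e a b = F a b c d e := fun a b c d e =>
    (r1 b c d e a).trans (r1 a b c d e)
  have r3 : ∀ a b c d e, F d e a b c = F a b c d e := fun a b c d e =>
    (r2 b c d e a).trans (r1 a b c d e)
  have r4 : ∀ a b c d e, F e a b c d = F a b c d e := fun a b c d e =>
    (r3 b c d e a).trans (r1 a b c d e)
  have m : ∀ a b c d e a' b' c' d' e', (a = true → a' = true) → (b = true → b' = true) →
      (c = true → c' = true) → (d = true → d' = true) → (e = true → e' = true) →
      F a b c d e ≤ F a' b' c' d' e' := by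
    intro a b c d e a' b' c' d' e' h1 h2 h3 h4 h5
    refine hmono _ _ fun j => ?_
    fin_cases j
    · exact h1
    · exact h2
    · exact h3
    · exact h4
    · exact h5
  have b01 : ∀ a b c d e, 0 ≤ F a b c d e ∧ F a b c d e ≤ 1 := by
    intro a b c d e
    rcases h01 (GO (false, ![a, b, c, d, e])) with h | h
    · have h2 : F a b c d e = 0 := h
      omega
    · have h2 : F a b c d e = 1 := h
      omega
  have hall : F true true true true true = 1 := by
    have h2 : (![true, true, true, true, true] : Fin 5 → Bool) = fun _ => true := by
      ext j
      fin_cases j <;> rfl
    simp only [hF, h2]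
    exact h5
  have hnone : F false false false false false = f (GO (false, fun _ => false)) := by
    have h2 : (![false, false, false, false, false] : Fin 5 → Bool) = fun _ => false := by
      ext j
      fin_cases j <;> rfl
    simp only [hF, h2]
  have e00001 : F false false false false true = F true false false false false := r1 true false false false false
  have e00010 : F false false false true false = F true false false false false := r2 true false false false false
  have e00011 : F false false false true true = F true true false false false := r2 true true false false false
  have e00100 : F false false true false false = F true false false false false := r3 true false false false false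
  have e00101 : F false false true false true = F true false true false false := r3 true false true false false
  have e00110 : F false false true true false = F true true false false false := r3 true true false false false
  have e00111 : F false false true true true = F true true true false false := r3 true true true false false
  have e01000 : F false true false false false = F true false false false false := r4 true false false false false
  have e01001 : F false true false false true = F true false true false false := r1 true false true false false
  have e01010 : F false true false true false = F true false true false false := r4 true false true false false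
  have e01011 : F false true false true true = F true true false true false := r2 true true false true false
  have e01100 : F false true true false false = F true true false false false := r4 true true false false false
  have e01101 : F false true true false true = F true true false true false := r4 true true false true false
  have e01110 : F false true true true false = F true true true false false := r4 true true true false false
  have e01111 : F false true true true true = F true true true true false := r4 true true true true false
  have e10001 : F true false false false true = F true true false false false := r1 true true false false false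
  have e10010 : F true false false true false = F true false true false false := r2 true false true false false
  have e10011 : F true false false true true = F true true true false false := r2 true true true false false
  have e10101 : F true false true false true = F true true false true false := r1 true true false true false
  have e10110 : F true false true true false = F true true false true false := r3 true true false true false
  have e10111 : F true false true true true = F true true true true false := r3 true true true true false
  have e11001 : F true true false false true = F true true true false false := r1 true true true false false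
  have e11011 : F true true false true true = F true true true true false := r2 true true true true false
  have e11101 : F true true true false true = F true true true true false := r1 true true true true false
  have hFe : ∀ a b c d e : Bool, f (GO (false, e5 (a, b, c, d, e))) = F a b c d e :=
    fun a b c d e => rfl
  have hnb : ∀ a b c d e : Bool, ∀ u : Bool, nb (u, e5 (a, b, c, d, e)) =
      u.toNat + (a.toNat + b.toNat + c.toNat + d.toNat + e.toNat) := fun a b c d e u => rfl
  simp only [hFe, hnb, Bool.toNat_true, Bool.toNat_false] at hf
  rw [e00001, e00010, e00011, e00100, e00101, e00110, e00111, e01000, e01001, e01010, e01011, e01100, e01101, e01110, e01111, e10001, e10010, e10011, e10101, e10110, e10111, e11001, e11011, e11101] at hf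
  norm_num at hf
  have m1 : F true false false false false ≤ F true true false false false := by
    apply m <;> simp
  have m2 : F true false false false false ≤ F true false true false false := by
    apply m <;> simp
  have m3 : F true true false false false ≤ F true true true false false := by
    apply m <;> simp
  have m4 : F true true false false false ≤ F true true false true false := by
    apply m <;> simp
  have m5 : F true false true false false ≤ F true true true false false := by
    apply m <;> simp
  have m6 : F true false true false false ≤ F true true false true false := by
    rw [← e01010]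
    apply m <;> simp
  have m7 : F true true true false false ≤ F true true true true false := by
    apply m <;> simp
  have m8 : F true true false true false ≤ F true true true true false := by
    apply m <;> simp
  rw [← hnone]
  rw [hall] at hf
  obtain ⟨c0, c0'⟩ := b01 false false false false false
  obtain ⟨c1, c1'⟩ := b01 true false false false false
  obtain ⟨c2, c2'⟩ := b01 true true false false false
  obtain ⟨c3, c3'⟩ := b01 true false true false false
  obtain ⟨c4, c4'⟩ := b01 true true true false false
  obtain ⟨c5, c5'⟩ := b01 true true false true false
  obtain ⟨c6, c6'⟩ := b01 true true true true false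
  clear_value F
  generalize F false false false false false = g0 at *
  generalize F true false false false false = g1 at *
  generalize F true true false false false = g2 at *
  generalize F true false true false false = g3 at *
  generalize F true true true false false = g4 at *
  generalize F true true false true false = g5 at *
  generalize F true true true true false = g6 at *
  clear r1 r2 r3 r4 m b01 hF hFe hnb
  omega

end Pool.Agent.L0h93.Karp.E
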