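import Pool.Agent.L0h93.Karp.E.Defs
import Pool.Agent.L0h93.Karp.E.Mod
import Pool.Agent.H119R2.Kp.PVE
import Pool.Agent.H119R2.Kp.Rel

set_option autoImplicit false

/-! # One step of the chain for eleven blocks -/

namespace Pool.Agent.L0h93.Karp.E

open Finset
open Pool.Agent.H119R2.Kp
open Pool.Agent.H98R2.Ev (EV toG NE)

namespace CA

variable {p x r : ℕ}

/-- translations of the blocks and of the cyclic part -/
def T (d : (Fin 11 → ZMod p) × ZMod x) : Equiv.Perm (WW p x r) :=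
  Equiv.sumCongr (Equiv.prodShear (Equiv.refl _) (fun i => Equiv.addRight (d.1 i)))
    (Equiv.sumCongr (Equiv.addRight d.2) (Equiv.refl _))

@[simp] lemma T_block (d : (Fin 11 → ZMod p) × ZMod x) (i : Fin 11) (a : ZMod p) :
    T (r := r) d (Sum.inl (i, a)) = Sum.inl (i, a + d.1 i) := rfl

@[simp] lemma T_cyc (d : (Fin 11 → ZMod p) × ZMod x) (a : ZMod x) :
    T (p := p) (r := r) d (Sum.inr (Sum.inl a)) = Sum.inr (Sum.inl (a + d.2)) := rfl

@[simp] lemma T_fix (d : (Fin 11 → ZMod p) × ZMod x) (a : Fin r) :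
    T (p := p) d (Sum.inr (Sum.inr a)) = Sum.inr (Sum.inr a) := rfl

lemma T_add (d d' : (Fin 11 → ZMod p) × ZMod x) : T (r := r) (d + d') = T d * T d' := by
  ext u
  rcases u with ⟨i, a⟩ | a | a
  · simp only [Equiv.Perm.coe_mul, Function.comp_apply, T_block, Prod.fst_add, Pi.add_apply]
    congr 2
    abel
  · simp only [Equiv.Perm.coe_mul, Function.comp_apply, T_cyc, Prod.snd_add]
    congr 2
    abel
  · simp

lemma T_zero : T (p := p) (x := x) (r := r) 0 = 1 := by
  ext u
  rcases u with ⟨i, a⟩ | a | a <;> simp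

lemma T_nsmul (n : ℕ) (d : (Fin 11 → ZMod p) × ZMod x) : T (r := r) (n • d) = T d ^ n := by
  induction n with
  | zero => simp [T_zero]
  | succ n ih => rw [succ_nsmul, T_add, ih, pow_succ]

/-- the generator translating block `i` -/
def ga (i : Fin 11) : Equiv.Perm (WW p x r) := T (Pi.single i 1, 0)

/-- the rotation of the cyclic part -/
def gc : Equiv.Perm (WW p x r) := T (0, 1)

lemma T_comm (d d' : (Fin 11 → ZMod p) × ZMod x) : T (r := r) d * T d' = T d' * T d := by
  rw [← T_add, ← T_add, add_comm]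

lemma T_mem [NeZero p] [NeZero x] (d : (Fin 11 → ZMod p) × ZMod x) :
    T (r := r) d ∈ Subgroup.closure (insert gc (Set.range ga)) := by
  have h1 : ∀ i : Fin 11, ∀ z : ZMod p, T (p := p) (x := x) (r := r) (Pi.single i z, 0) ∈
      Subgroup.closure (insert gc (Set.range ga)) := by
    intro i z
    have : ((Pi.single i z, 0) : (Fin 11 → ZMod p) × ZMod x) =
        z.val • ((Pi.single i 1, 0) : (Fin 11 → ZMod p) × ZMod x) := by
      ext j
      · simp only [Prod.smul_fst, Pi.smul_apply]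
        by_cases hj : j = i
        · subst hj
          simp
        · simp [Pi.single_eq_of_ne hj]
      · simp
    rw [this, T_nsmul]
    have hm : ga i ∈ Subgroup.closure (insert (gc (p := p) (x := x) (r := r)) (Set.range ga)) :=
      Subgroup.subset_closure (Set.mem_insert_of_mem _ ⟨i, rfl⟩)
    exact Subgroup.pow_mem _ hm _
  have h2 : ∀ z : ZMod x, T (p := p) (x := x) (r := r) (0, z) ∈
      Subgroup.closure (insert gc (Set.range ga)) := by
    intro z
    have : ((0, z) : (Fin 11 → ZMod p) × ZMod x) =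
        z.val • ((0, 1) : (Fin 11 → ZMod p) × ZMod x) := by
      ext j
      · simp
      · simp
    rw [this, T_nsmul]
    have hm : gc ∈ Subgroup.closure (insert (gc (p := p) (x := x) (r := r)) (Set.range ga)) :=
      Subgroup.subset_closure (Set.mem_insert _ _)
    exact Subgroup.pow_mem _ hm _
  have h3 : ∀ S : Finset (Fin 11), T (p := p) (x := x) (r := r)
      (∑ i ∈ S, Pi.single i (d.1 i), 0) ∈ Subgroup.closure (insert gc (Set.range ga)) := by
    intro S
    induction S using Finset.induction_on with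
    | empty =>
      rw [Finset.sum_empty]
      have : ((0, 0) : (Fin 11 → ZMod p) × ZMod x) = 0 := rfl
      rw [this, T_zero]
      exact Subgroup.one_mem _
    | insert a S ha ih =>
      rw [Finset.sum_insert ha]
      have : ((Pi.single a (d.1 a) + ∑ i ∈ S, Pi.single i (d.1 i), 0) :
          (Fin 11 → ZMod p) × ZMod x) = (Pi.single a (d.1 a), 0) +
            (∑ i ∈ S, Pi.single i (d.1 i), 0) := by
        rw [Prod.mk_add_mk, add_zero]
      rw [this, T_add]
      exact Subgroup.mul_mem _ (h1 _ _) ih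
  have h4 : d = (∑ i : Fin 11, Pi.single i (d.1 i), 0) + (0, d.2) := by
    refine Prod.ext ?_ ?_
    · simp only [Prod.fst_add, add_zero]
      exact (Finset.univ_sum_single d.1).symm
    · simp
  rw [h4, T_add]
  exact Subgroup.mul_mem _ (h3 _) (h2 _)

/-- class of a pair of different blocks -/
def kk (b b' : Fin 11) : Fin 66 :=
  ⟨11 * (![0, 1, 2, 4, 3, 5, 5, 3, 4, 2, 1] : Fin 11 → Fin 6) (b' - b) +
    (if (b' - b).val ≤ 5 then b.val else b'.val), by
      have h1 := ((![0, 1, 2, 4, 3, 5, 5, 3, 4, 2, 1] : Fin 11 → Fin 6) (b' - b)).isLt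
      have h2 := b.isLt
      have h3 := b'.isLt
      split_ifs <;> omega⟩

/-- class of a block with the cyclic part -/
def bb (b : Fin 11) : Fin 66 := ⟨b.val, by omega⟩

/-- the class of a pair of vertices -/
def ty : WW p x r → WW p x r → Option (Fin 66)
  | .inl u, .inl v => if u.1 = v.1 then none else some (kk u.1 v.1)
  | .inl u, .inr (.inl _) => some (bb u.1)
  | .inr (.inl _), .inl u => some (bb u.1)
  | _, _ => none

lemma kk_comm : ∀ b b' : Fin 11, b ≠ b' → kk b b' = kk b' b := by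
  decide +kernel

lemma ty_comm (u v : WW p x r) : ty u v = ty v u := by
  rcases u with ⟨i, a⟩ | a | a <;> rcases v with ⟨j, b⟩ | b | b <;> simp only [ty]
  by_cases h : i = j
  · simp [h]
  · simp [h, Ne.symm h, kk_comm i j h]

/-- the classes -/
def R (j : Fin 66) : SimpleGraph (WW p x r) where
  Adj u v := ty u v = some j
  symm := ⟨fun u v h => by rw [ty_comm]; exact h⟩
  loopless := ⟨by
    rintro (⟨i, a⟩ | a | a) h <;> simp [ty] at h⟩

lemma R_adj (j : Fin 66) (u v : WW p x r) : (R j).Adj u v ↔ ty u v = some j := Iff.rfl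

lemma ty_T (d : (Fin 11 → ZMod p) × ZMod x) (u v : WW p x r) : ty (T d u) (T d v) = ty u v := by
  rcases u with ⟨i, a⟩ | a | a <;> rcases v with ⟨j, b⟩ | b | b <;> simp [ty]

/-- rotation of the blocks -/
def rt : Equiv.Perm (WW p x r) :=
  Equiv.sumCongr (Equiv.prodCongr (Equiv.addRight 1) (Equiv.refl _)) (Equiv.refl _)

/-- multiplication of the blocks by `2` -/
def d2 : Equiv.Perm (Fin 11) :=
  ⟨fun b => 2 * b, fun b => 6 * b, by decide +kernel, by decide +kernel⟩

/-- multiplication of the blocks by `2` -/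
def mu2 : Equiv.Perm (WW p x r) :=
  Equiv.sumCongr (Equiv.prodCongr d2 (Equiv.refl _)) (Equiv.refl _)

lemma kk_rot : ∀ b b' : Fin 11, b ≠ b' → kk (b + 1) (b' + 1) = rho (kk b b') := by
  decide +kernel

lemma bb_rot : ∀ b : Fin 11, bb (b + 1) = rho (bb b) := by
  decide +kernel

lemma ty_rt (u v : WW p x r) : ty (rt u) (rt v) = (ty u v).map rho := by
  rcases u with ⟨i, a⟩ | a | a <;> rcases v with ⟨j, b⟩ | b | b <;>
    simp [ty, rt, bb_rot]
  by_cases h : i = j
  · simp [h]
  · simp [h, kk_rot i j h]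

lemma kk_ge : ∀ b b' : Fin 11, b ≠ b' → ¬ (kk b b').val < 11 := by
  decide +kernel

lemma kk_pos : ∀ b b' : Fin 11, b ≠ b' → ∀ h : (kk b b').val / 11 - 1 < 5,
    ∀ h' : (kk (d2 b) (d2 b')).val / 11 - 1 < 5,
    (⟨(kk (d2 b) (d2 b')).val / 11 - 1, h'⟩ : Fin 5) = ⟨(kk b b').val / 11 - 1, h⟩ + 1 := by
  decide +kernel

/-- the action of the multiplication on the unions of orbits -/
lemma kk_mul (T : Fin 5 → Bool) (b b' : Fin 11) (hb : b ≠ b')
    (h : kk b b' ∈ GO (false, fun j => T (j + 1))) : kk (d2 b) (d2 b') ∈ GO (false, T) := by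
  have hb2 : d2 b ≠ d2 b' := fun h => hb (d2.injective h)
  rw [mem_GO, dif_neg (kk_ge b b' hb)] at h
  rw [mem_GO, dif_neg (kk_ge _ _ hb2), kk_pos b b' hb]
  exact h

lemma bb_mul (T : Fin 5 → Bool) (b : Fin 11)
    (h : bb b ∈ GO (false, fun j => T (j + 1))) : bb (d2 b) ∈ GO (false, T) := by
  rw [mem_GO, dif_pos (by exact b.isLt)] at h
  exact absurd h Bool.false_ne_true

lemma kk_inj : ∀ b b' c c' : Fin 11, b ≠ b' → c ≠ c' → kk b b' = kk c c' →
    (b = c ∧ b' = c') ∨ (b = c' ∧ b' = c) := by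
  decide +kernel

lemma bb_inj : ∀ b b' : Fin 11, bb b = bb b' → b = b' := by
  decide +kernel

lemma kk_ne_bb : ∀ b b' c : Fin 11, b ≠ b' → kk b b' ≠ bb c := by
  decide +kernel

lemma exT_bb (i j : Fin 11) (hij : i ≠ j) (a a' b b' : ZMod p) :
    ∃ d : (Fin 11 → ZMod p) × ZMod x, T (r := r) d (Sum.inl (i, a)) = Sum.inl (i, a') ∧
      T (r := r) d (Sum.inl (j, b)) = Sum.inl (j, b') := by
  refine ⟨(Pi.single i (a' - a) + Pi.single j (b' - b), 0), ?_, ?_⟩
  · simp [Pi.single_eq_of_ne hij]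
  · simp [Pi.single_eq_of_ne hij.symm]

lemma exT_bx (i : Fin 11) (a a' : ZMod p) (b b' : ZMod x) :
    ∃ d : (Fin 11 → ZMod p) × ZMod x, T (r := r) d (Sum.inl (i, a)) = Sum.inl (i, a') ∧
      T (p := p) (r := r) d (Sum.inr (Sum.inl b)) = Sum.inr (Sum.inl b') := by
  refine ⟨(Pi.single i (a' - a), b' - b), ?_, ?_⟩
  · simp
  · simp

lemma htr' (j : Fin 66) (u v u' v' : WW p x r) (h : ty u v = some j) (h' : ty u' v' = some j) :
    ∃ d, (T d u = u' ∧ T d v = v') ∨ (T d u = v' ∧ T d v = u') := by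
  rcases u with ⟨i, a⟩ | a | a <;> rcases v with ⟨k, b⟩ | b | b <;>
    rcases u' with ⟨i', a'⟩ | a' | a' <;> rcases v' with ⟨k', b'⟩ | b' | b' <;>
    simp only [ty, reduceCtorEq] at h h'
  · split_ifs at h h' with h1 h2
    simp only [Option.some.injEq] at h h'
    rcases kk_inj i k i' k' h1 h2 (h.trans h'.symm) with ⟨h3, h4⟩ | ⟨h3, h4⟩
    · subst h3 h4
      obtain ⟨d, hd1, hd2⟩ := exT_bb (x := x) (r := r) i k h1 a a' b b'
      exact ⟨d, Or.inl ⟨hd1, hd2⟩⟩
    · subst h3 h4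
      obtain ⟨d, hd1, hd2⟩ := exT_bb (x := x) (r := r) i k h1 a b' b a'
      exact ⟨d, Or.inr ⟨hd1, hd2⟩⟩
  · split_ifs at h with h1
    simp only [Option.some.injEq] at h h'
    exact absurd (h.trans h'.symm) (kk_ne_bb i k i' h1)
  · split_ifs at h with h1
    simp only [Option.some.injEq] at h h'
    exact absurd (h.trans h'.symm) (kk_ne_bb i k k' h1)
  · split_ifs at h' with h1
    simp only [Option.some.injEq] at h h'
    exact absurd (h'.trans h.symm) (kk_ne_bb i' k' i h1)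
  · simp only [Option.some.injEq] at h h'
    obtain rfl := bb_inj _ _ (h.trans h'.symm)
    obtain ⟨d, hd1, hd2⟩ := exT_bx (r := r) i a a' b b'
    exact ⟨d, Or.inl ⟨hd1, hd2⟩⟩
  · simp only [Option.some.injEq] at h h'
    obtain rfl := bb_inj _ _ (h.trans h'.symm)
    obtain ⟨d, hd1, hd2⟩ := exT_bx (r := r) i a b' b a'
    exact ⟨d, Or.inr ⟨hd1, hd2⟩⟩
  · split_ifs at h' with h1
    simp only [Option.some.injEq] at h h'
    exact absurd (h'.trans h.symm) (kk_ne_bb i' k' k h1)
  · simp only [Option.some.injEq] at h h'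
    obtain rfl := bb_inj _ _ (h.trans h'.symm)
    obtain ⟨d, hd1, hd2⟩ := exT_bx (r := r) k b a' a b'
    exact ⟨d, Or.inr ⟨hd2, hd1⟩⟩
  · simp only [Option.some.injEq] at h h'
    obtain rfl := bb_inj _ _ (h.trans h'.symm)
    obtain ⟨d, hd1, hd2⟩ := exT_bx (r := r) k b b' a a'
    exact ⟨d, Or.inl ⟨hd2, hd1⟩⟩

lemma card_bb [NeZero p] [NeZero x] (b : Fin 11) :
    x * p ≤ Nat.card (R (p := p) (x := x) (r := r) (bb b)).edgeSet := by
  have : x * p = Nat.card (ZMod x × ZMod p) := by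
    rw [Nat.card_prod, Nat.card_zmod, Nat.card_zmod]
  rw [this]
  refine Nat.card_le_card_of_injective (fun w => ⟨s(Sum.inr (Sum.inl w.1), Sum.inl (b, w.2)), ?_⟩) ?_
  · rw [SimpleGraph.mem_edgeSet, R_adj]
    simp [ty]
  · rintro ⟨a, c⟩ ⟨a', c'⟩ h
    simp only [Subtype.mk.injEq, Sym2.eq_iff, Sum.inr.injEq, Sum.inl.injEq, Prod.mk.injEq,
      reduceCtorEq, false_and, or_false, true_and] at h
    ext <;> simp [h]

lemma card_kk [NeZero p] [NeZero x] (b b' : Fin 11) (hb : b ≠ b') :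
    p * p ≤ Nat.card (R (p := p) (x := x) (r := r) (kk b b')).edgeSet := by
  have : p * p = Nat.card (ZMod p × ZMod p) := by
    rw [Nat.card_prod, Nat.card_zmod]
  rw [this]
  refine Nat.card_le_card_of_injective (fun w => ⟨s(Sum.inl (b, w.1), Sum.inl (b', w.2)), ?_⟩) ?_
  · rw [SimpleGraph.mem_edgeSet, R_adj]
    simp [ty, hb]
  · rintro ⟨a, c⟩ ⟨a', c'⟩ h
    simp only [Subtype.mk.injEq, Sym2.eq_iff, Sum.inl.injEq, Prod.mk.injEq, hb, false_and,
      or_false, true_and] at h
    ext <;> simp [h]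

lemma cls66 : ∀ j : Fin 66, (∃ b, j = bb b) ∨ ∃ b b', b ≠ b' ∧ j = kk b b' := by
  decide +kernel

lemma card_R [NeZero p] [NeZero x] :
    11 * p * x + 55 * p * p ≤ ∑ j, Nat.card (R (p := p) (x := x) (r := r) j).edgeSet := by
  have h1 : ∀ j : Fin 66, (if j.val < 11 then x * p else p * p) ≤
      Nat.card (R (p := p) (x := x) (r := r) j).edgeSet := by
    intro j
    rcases cls66 j with ⟨b, rfl⟩ | ⟨b, b', hbb, rfl⟩
    · have h2 : (bb b).val < 11 := b.isLt
      rw [if_pos h2]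
      exact card_bb b
    · have h2 : ¬ (kk b b').val < 11 := kk_ge b b' hbb
      rw [if_neg h2]
      exact card_kk b b' hbb
  refine le_trans (le_of_eq ?_) (sum_le_sum fun j _ => h1 j)
  rw [Fin.sum_univ_eq_sum_range (fun j => if j < 11 then x * p else p * p) 66,
    show (66 : ℕ) = 11 + 55 by norm_num, Finset.sum_range_add]
  have e1 : ∑ i ∈ range 11, (if i < 11 then x * p else p * p) = ∑ i ∈ range 11, x * p :=
    sum_congr rfl fun i hi => if_pos (mem_range.1 hi)
  have e2 : ∑ i ∈ range 55, (if 11 + i < 11 then x * p else p * p) = ∑ i ∈ range 55, p * p :=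
    sum_congr rfl fun i _ => if_neg (by omega)
  rw [e1, e2]
  simp only [sum_const, card_range, smul_eq_mul]
  ring

/-- the graph of a set of classes -/
def BI (H : SimpleGraph (ZMod x)) (t : ℕ) (I : Finset (Fin 66)) : SimpleGraph (WW p x r) :=
  GG p x r H (TT p t false) ⊔ ⨆ j ∈ I, R j

lemma BI_adj (H : SimpleGraph (ZMod x)) (t : ℕ) (I : Finset (Fin 66)) (u v : WW p x r) :
    (BI H t I).Adj u v ↔ (GG p x r H (TT p t false)).Adj u v ∨ ∃ j ∈ I, ty u v = some j := by
  unfold BI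
  simp only [SimpleGraph.sup_adj, SimpleGraph.iSup_adj, R_adj, exists_prop]

lemma CT_T (t : ℕ) (jj : Bool) (d : (Fin 11 → ZMod p) × ZMod x) (u v : Fin 11 × ZMod p)
    (h : (TT p t jj).Adj u v) :
    (TT p t jj).Adj (u.1, u.2 + d.1 u.1) (v.1, v.2 + d.1 v.1) := by
  obtain ⟨h1, h2⟩ := h
  refine ⟨?_, ?_⟩
  · intro hc
    apply h1
    simp only [Prod.mk.injEq] at hc
    ext
    · rw [hc.1]
    · have := hc.2
      rw [hc.1] at this
      exact add_right_cancel this
  · rcases h2 with h2 | ⟨h2, e, h3, h4, h5⟩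
    · exact Or.inl h2
    · refine Or.inr ⟨h2, e, h3, h4, ?_⟩
      simp only
      rw [h2]
      rcases h5 with h5 | h5
      · left; rw [h5]; ring
      · right; rw [h5]; ring

lemma CT_pm (t : ℕ) (jj : Bool) (σ : Equiv.Perm (Fin 11)) (u v : Fin 11 × ZMod p)
    (h : (TT p t jj).Adj u v) :
    (TT p t jj).Adj (σ u.1, u.2) (σ v.1, v.2) := by
  obtain ⟨h1, h2⟩ := h
  refine ⟨?_, ?_⟩
  · intro hc
    apply h1
    simp only [Prod.mk.injEq, EmbeddingLike.apply_eq_iff_eq] at hc
    exact Prod.ext hc.1 hc.2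
  · rcases h2 with h2 | ⟨h2, e, h3, h4, h5⟩
    · refine Or.inl ⟨?_, h2.2⟩
      exact fun h => h2.1 (σ.injective h)
    · exact Or.inr ⟨by simp [h2], e, h3, h4, h5⟩

lemma WG_T [NeZero x] (H : SimpleGraph (ZMod x)) (hH : ∀ a b, H.Adj a b → H.Adj (a + 1) (b + 1))
    (t : ℕ) (jj : Bool) (d : (Fin 11 → ZMod p) × ZMod x) (u v : WW p x r)
    (h : (GG p x r H (TT p t jj)).Adj u v) : (GG p x r H (TT p t jj)).Adj (T d u) (T d v) := by
  have hH' : ∀ n : ℕ, ∀ a b, H.Adj a b → H.Adj (a + n) (b + n) := by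
    intro n
    induction n with
    | zero => intro a b h; simpa using h
    | succ n ih =>
      intro a b h
      have := hH _ _ (ih a b h)
      push_cast
      rw [← add_assoc, ← add_assoc]
      exact this
  have hH2 : ∀ e a b, H.Adj a b → H.Adj (a + e) (b + e) := by
    intro e a b h
    have := hH' e.val a b h
    rwa [ZMod.natCast_zmod_val] at this
  rcases u with ⟨i, a⟩ | a | a <;> rcases v with ⟨j, b⟩ | b | b
  · exact CT_T t jj d (i, a) (j, b) h
  · exact h
  · trivial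
  · exact h
  · exact hH2 _ _ _ h
  · exact h
  · trivial
  · exact h
  · exact h

lemma WG_pm (H : SimpleGraph (ZMod x)) (t : ℕ) (jj : Bool) (σ : Equiv.Perm (Fin 11))
    (u v : WW p x r) (h : (GG p x r H (TT p t jj)).Adj u v) :
    (GG p x r H (TT p t jj)).Adj
      (Equiv.sumCongr (Equiv.prodCongr σ (Equiv.refl _)) (Equiv.refl _) u)
      (Equiv.sumCongr (Equiv.prodCongr σ (Equiv.refl _)) (Equiv.refl _) v) := by
  rcases u with ⟨i, a⟩ | a | a <;> rcases v with ⟨j, b⟩ | b | b
  · exact CT_pm t jj σ (i, a) (j, b) h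
  · exact h
  · exact h
  · exact h
  · exact h
  · exact h
  · exact h
  · exact h
  · exact h

end CA

end Pool.Agent.L0h93.Karp.E
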