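import Pool.Agent.L0h93.Karp.E.Defs
import Pool.Agent.L0h93.Karp.B5
import Pool.Agent.H119R2.Kp.ChainB

set_option autoImplicit false

/-! # Disjoint copies of a circulant embed into the join of smaller circulants -/

namespace Pool.Agent.L0h93.Karp.E

open Finset
open Pool.Agent.H119R2.Kp

/-- the colour -/
def colE (p t I : ℕ) : Fin 11 :=
  if p - t ≤ I then 2 else if I % 2 = 0 then 0 else 1

theorem keyE {p t I d : ℕ} (htp : 2 * t < p) (h1 : 1 ≤ d) (h2 : d ≤ t) (hI : I + d < p)
    (hc : colE p t I = colE p t (I + d)) :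
    ∃ d' : ℕ, 1 ≤ d' ∧ d' ≤ t - 1 ∧ chb_pos p t (I + d) = chb_pos p t I + d' := by
  refine chb_key htp h1 h2 hI ?_
  unfold colE at hc
  unfold chb_col
  split_ifs at hc ⊢ <;> first | rfl | exact absurd hc (by decide)

/-- eleven disjoint copies of the circulant graph with differences `±1..±t` embed into the join of
eleven copies of the circulant graph with differences `±1..±(t-1)` -/
theorem chainB (p t : ℕ) [Fact p.Prime] (ht : 1 ≤ t) (htp : 2 * t < p) :
    ∃ e : Fin 11 × ZMod p ≃ Fin 11 × ZMod p, ∀ u v, (TT p t false).Adj u v →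
      (TT p (t - 1) true).Adj (e u) (e v) := by
  have hp0 : 0 < p := by omega
  have : NeZero p := ⟨by omega⟩
  let f : Fin 11 × ZMod p → Fin 11 × ZMod p := fun u =>
    (u.1 + colE p t u.2.val, (chb_pos p t u.2.val : ZMod p))
  have hinj : Function.Injective f := by
    rintro ⟨a, i⟩ ⟨b, j⟩ h
    have h1 : a + colE p t i.val = b + colE p t j.val := congrArg Prod.fst h
    have h2 : ((chb_pos p t i.val : ℕ) : ZMod p) = ((chb_pos p t j.val : ℕ) : ZMod p) :=
      congrArg Prod.snd h
    rw [ZMod.natCast_eq_natCast_iff'] at h2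
    rw [Nat.mod_eq_of_lt (chb_pos_lt (ZMod.val_lt i)),
      Nat.mod_eq_of_lt (chb_pos_lt (ZMod.val_lt j))] at h2
    have h3 := chb_pos_inj (ZMod.val_lt i) (ZMod.val_lt j) h2
    have h4 : i = j := ZMod.val_injective p h3
    subst h4
    have h5 : a = b := add_right_cancel h1
    rw [h5]
  have hbij : Function.Bijective f := Finite.injective_iff_bijective.mp hinj
  -- one orientation
  have key : ∀ (a : Fin 11) (i j : ZMod p) (d : ℕ), 1 ≤ d → d ≤ t → j = i + d →
      (TT p (t - 1) true).Adj (f (a, i)) (f (a, j)) := by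
    intro a i j d h1 h2 hij
    have hIlt := ZMod.val_lt i
    have hne : i ≠ j := by
      rintro rfl
      have h3 : ((d : ℕ) : ZMod p) = 0 := by
        have := hij
        rwa [left_eq_add] at this
      rw [ZMod.natCast_eq_zero_iff] at h3
      have := Nat.le_of_dvd (by omega) h3
      omega
    refine ⟨fun h => hne (congrArg Prod.snd (hinj h)), ?_⟩
    have hJ : j.val = (i.val + d) % p := by
      rw [hij, ZMod.val_add, ZMod.val_natCast, Nat.add_mod_mod]
    by_cases hw : i.val + d < p
    · rw [Nat.mod_eq_of_lt hw] at hJ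
      by_cases hc : colE p t i.val = colE p t (i.val + d)
      · obtain ⟨d', h3, h4, h5⟩ := keyE htp h1 h2 hw hc
        right
        refine ⟨?_, d', h3, h4, Or.inl ?_⟩
        · change a + colE p t i.val = a + colE p t j.val
          rw [hJ, hc]
        · change ((chb_pos p t j.val : ℕ) : ZMod p) = ((chb_pos p t i.val : ℕ) : ZMod p) + d'
          rw [hJ, h5]
          push_cast
          ring
      · left
        refine ⟨fun h => hc ?_, rfl⟩
        have h3 : a + colE p t i.val = a + colE p t j.val := h
        rw [hJ] at h3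
        exact add_left_cancel h3
    · have hJ' : j.val = i.val + d - p := by
        rw [hJ, Nat.mod_eq_sub_mod (by omega), Nat.mod_eq_of_lt (by omega)]
      left
      refine ⟨fun h => ?_, rfl⟩
      have h3 : a + colE p t i.val = a + colE p t j.val := h
      have h4 := add_left_cancel h3
      unfold colE at h4
      rw [if_pos (by omega), if_neg (by omega)] at h4
      split_ifs at h4 <;> exact absurd h4 (by decide)
  refine ⟨Equiv.ofBijective f hbij, ?_⟩
  rintro ⟨a, i⟩ ⟨b, j⟩ ⟨hne, h⟩
  rcases h with ⟨-, h⟩ | ⟨h, d, h1, h2, h3⟩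
  · exact absurd h (by decide)
  · have hab : a = b := h
    subst hab
    rcases h3 with h3 | h3
    · exact key a i j d h1 h2 h3
    · exact (key a j i d h1 h2 h3).symm

end Pool.Agent.L0h93.Karp.E
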