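import Mathlib
import Pool.Agent.H119R2.Kp.Defs

set_option autoImplicit false

/-!
# Eleven blocks and a cyclic part: definitions (Karp conjecture)
-/

namespace Pool.Agent.L0h93.Karp.E

open Finset
open Pool.Agent.H119R2.Kp

/-- vertices: eleven blocks of size `p`, a cyclic part of size `x`, a fixed part of size `r` -/
abbrev WW (p x r : ℕ) : Type := (Fin 11 × ZMod p) ⊕ (ZMod x ⊕ Fin r)

/-- pattern `H` on the `x`-part; the `r`-part is a clique, completely joined to the blocks and not
joined to the `x`-part; the `x`-part is not joined to the blocks; on the blocks the graph `C` -/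
def GG (p x r : ℕ) (H : SimpleGraph (ZMod x)) (C : SimpleGraph (Fin 11 × ZMod p)) :
    SimpleGraph (WW p x r) where
  Adj
    | .inl u, .inl v => C.Adj u v
    | .inl _, .inr (.inl _) => False
    | .inr (.inl _), .inl _ => False
    | .inl _, .inr (.inr _) => True
    | .inr (.inr _), .inl _ => True
    | .inr (.inl a), .inr (.inl b) => H.Adj a b
    | .inr (.inl _), .inr (.inr _) => False
    | .inr (.inr _), .inr (.inl _) => False
    | .inr (.inr i), .inr (.inr j) => i ≠ j
  symm := ⟨by
    rintro (u | u | u) (v | v | v) h <;> simp_all [SimpleGraph.adj_comm, eq_comm]⟩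
  loopless := ⟨by
    rintro (u | u | u) h <;> simp_all⟩

/-- circulant pattern with differences `±1, …, ±t` inside the blocks; different blocks are
completely joined iff `jj = true` -/
def TT (p t : ℕ) (jj : Bool) : SimpleGraph (Fin 11 × ZMod p) where
  Adj u v := u ≠ v ∧ ((u.1 ≠ v.1 ∧ jj = true) ∨
    (u.1 = v.1 ∧ ∃ d : ℕ, 1 ≤ d ∧ d ≤ t ∧ (v.2 = u.2 + d ∨ u.2 = v.2 + d)))
  symm := ⟨by
    rintro u v ⟨h, h'⟩
    refine ⟨h.symm, ?_⟩
    rcases h' with h' | ⟨h1, d, h2, h3, h4⟩
    · exact Or.inl ⟨h'.1.symm, h'.2⟩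
    · exact Or.inr ⟨h1.symm, d, h2, h3, h4.symm⟩⟩
  loopless := ⟨fun _ h => h.1 rfl⟩

end Pool.Agent.L0h93.Karp.E
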