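import Pool.Agent.L0h93.Karp.E.A
import Pool.Agent.L0h93.Karp.E.B
import Pool.Agent.L0h93.Karp.Facts5
import Pool.Agent.H119R2.Kp.Facts

set_option autoImplicit false

/-! # The chain for eleven blocks; disconnected and hub facts -/

namespace Pool.Agent.L0h93.Karp.E

open Finset
open Pool.Agent.H119R2.Kp
open Pool.Agent.H98R2.Ev (EV toG NE)
open Pool.Agent.L0h93.Karp (hv_dual)

/-- monotonicity in the graph on the blocks, up to a permutation of the block vertices -/
theorem PV_GG_mono {n q : ℕ} {P : SimpleGraph (Fin n) → Prop} (hP : GP n q P) {p x r : ℕ}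
    (H : SimpleGraph (ZMod x)) {C C' : SimpleGraph (Fin 11 × ZMod p)}
    (e : Fin 11 × ZMod p ≃ Fin 11 × ZMod p) (he : ∀ u v, C.Adj u v → C'.Adj (e u) (e v))
    (h : PV P _ (GG p x r H C)) : PV P _ (GG p x r H C') := by
  refine PV.mono hP (Equiv.sumCongr e (Equiv.refl _)) ?_ h
  rintro (u | u | u) (v | v | v) huv
  · exact he u v huv
  · exact huv
  · exact huv
  · exact huv
  · exact huv
  · exact huv
  · exact huv
  · exact huv
  · exact huv

theorem TT_top (p : ℕ) [Fact p.Prime] (hp : 2 < p) (u v : Fin 11 × ZMod p) (h : u ≠ v) :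
    (TT p ((p - 1) / 2) true).Adj u v := by
  refine ⟨h, ?_⟩
  by_cases h1 : u.1 = v.1
  · right
    refine ⟨h1, ?_⟩
    have h2 : v.2 - u.2 ≠ 0 := by
      intro h3
      exact h (Prod.ext h1 (sub_eq_zero.mp h3).symm)
    have hodd : p % 2 = 1 := by
      rcases (Fact.out : p.Prime).eq_two_or_odd with h3 | h3
      · omega
      · exact h3
    have hval : (v.2 - u.2).val ≠ 0 := by
      rw [ne_eq, ZMod.val_eq_zero]
      exact h2
    have hlt := ZMod.val_lt (v.2 - u.2)
    by_cases h3 : (v.2 - u.2).val ≤ (p - 1) / 2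
    · refine ⟨(v.2 - u.2).val, by omega, h3, Or.inl ?_⟩
      rw [ZMod.natCast_zmod_val]
      ring
    · refine ⟨p - (v.2 - u.2).val, by omega, by omega, Or.inr ?_⟩
      rw [Nat.cast_sub hlt.le, ZMod.natCast_zmod_val, ZMod.natCast_self]
      ring
  · left
    exact ⟨h1, rfl⟩

theorem TT_bot (p : ℕ) (u v : Fin 11 × ZMod p) : ¬ (TT p 0 false).Adj u v := by
  rintro ⟨_, ⟨_, h⟩ | ⟨_, d, h1, h2, _⟩⟩
  · exact Bool.noConfusion h
  · omega

/-- **the chain for eleven blocks** -/
theorem chain {n q : ℕ} {P : SimpleGraph (Fin n) → Prop} (hP : GP n q P) (p x r : ℕ)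
    [Fact p.Prime] (hp : 2 < p) (hx : 0 < x) (hn : 11 * p + x + r = n) (H : SimpleGraph (ZMod x))
    (hH : ∀ a b, H.Adj a b → H.Adj (a + 1) (b + 1))
    (hU : ∀ G : SimpleGraph (WW p x r),
      (∀ a b, H.Adj a b → G.Adj (Sum.inr (Sum.inl a)) (Sum.inr (Sum.inl b))) →
      (∀ (u : Fin 11 × ZMod p) (v : ZMod x ⊕ Fin r), G.Adj (Sum.inl u) (Sum.inr v)) → PV P _ G)
    (hq : q < 11 * p * x + 55 * p * p) (hK : PV P _ (GG p x r H ⊤)) :
    PV P _ (GG p x r H ⊥) := by
  have h1 : ∀ t : ℕ, 2 * t < p → PV P _ (GG p x r H (TT p t true)) →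
      PV P _ (GG p x r H (TT p 0 false)) := by
    intro t
    induction t with
    | zero =>
      intro _ h
      exact chainA hP p x r 0 hx hn H hH hU hq h
    | succ t ih =>
      intro ht h
      have h2 := chainA hP p x r (t + 1) hx hn H hH hU hq h
      obtain ⟨e, he⟩ := chainB p (t + 1) (by omega) ht
      rw [Nat.add_sub_cancel] at he
      exact ih (by omega) (PV_GG_mono hP H e he h2)
  have hodd : p % 2 = 1 := by
    rcases (Fact.out : p.Prime).eq_two_or_odd with h3 | h3
    · omega
    · exact h3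
  have h2 : PV P _ (GG p x r H (TT p ((p - 1) / 2) true)) :=
    PV_GG_mono hP H (Equiv.refl _) (fun u v huv => TT_top p hp u v huv) hK
  have h3 := h1 ((p - 1) / 2) (by omega) h2
  exact PV_GG_mono hP H (Equiv.refl _) (fun u v huv => absurd huv (TT_bot p u v)) h3

/-- colouring of the vertices by three colours -/
def clE {p x r k : ℕ} (c : Fin k) (g : ZMod x → Fin k) (d : Fin k) : WW p x r → Fin k
  | .inl _ => c
  | .inr (.inl a) => g a
  | .inr (.inr _) => d

theorem sum_clE {p x r k : ℕ} [NeZero p] [NeZero x] (c : Fin k) (g : ZMod x → Fin k) (d : Fin k)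
    (i : Fin k) : ∑ v : WW p x r, (if clE c g d v = i then 1 else 0) =
      (if c = i then 11 * p else 0) + ((∑ a : ZMod x, if g a = i then 1 else 0) +
        (if d = i then r else 0)) := by
  rw [Fintype.sum_sum_type, Fintype.sum_sum_type]
  congr 1
  · have h0 : ∀ u : Fin 11 × ZMod p, (if clE (r := r) c g d (Sum.inl u) = i then 1 else 0) =
        (if c = i then 1 else 0 : ℕ) := fun _ => rfl
    rw [Finset.sum_congr rfl (fun u _ => h0 u), Finset.sum_const]
    split_ifs with h
    · simp
    · simp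
  · congr 1
    have h0 : ∀ u : Fin r, (if clE (p := p) c g d (Sum.inr (Sum.inr u)) = i then 1 else 0) =
        (if d = i then 1 else 0 : ℕ) := fun _ => rfl
    rw [Finset.sum_congr rfl (fun u _ => h0 u), Finset.sum_const]
    split_ifs with h
    · simp
    · simp

theorem card_WW {p x r : ℕ} [NeZero p] [NeZero x] :
    Fintype.card (WW p x r) = 11 * p + (x + r) := by
  simp only [WW, Fintype.card_sum, Fintype.card_prod, ZMod.card, Fintype.card_fin]

open FA in
/-- a clique of size `x` and a clique of size `11 p` -/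
theorem disc11 {n q : ℕ} {P : SimpleGraph (Fin n) → Prop} (hP : GP n q P) (hS : Star n P)
    (p x : ℕ) [Fact p.Prime] (hp : 3 < p) (hx : 0 < x) (hn : x + 11 * p = n)
    (hq : q < 11 * p * x + 55 * p * p) :
    hv P ![x, 11 * p] (pat [(0, 0), (1, 1)]) = 0 := by
  have : NeZero x := ⟨hx.ne'⟩
  have : NeZero p := ⟨(Fact.out : p.Prime).ne_zero⟩
  rcases hv01 P ![x, 11 * p] (pat [(0, 0), (1, 1)]) with h | h
  · exact h
  exfalso
  have hK : PV P _ (GG p x 0 ⊤ ⊤) := by
    refine of_hv hP _ _ (clE 1 (fun _ => 0) 1) ?_ _ ?_ h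
    · intro i
      rw [sum_clE]
      fin_cases i <;> simp
    · rintro (u | u | u) (v | v | v) huv h1
      · exact fun hc => huv (by rw [hc])
      · simp [clE, pat] at h1
      · exact v.elim0
      · simp [clE, pat] at h1
      · exact fun hc => huv (by rw [hc])
      · exact v.elim0
      · exact u.elim0
      · exact u.elim0
      · exact u.elim0
  have h2 := chain hP p x 0 (by omega) hx (by omega) ⊤ (fun a b h => by simpa using h) (by
    intro G h3 h4
    refine PV_univ hS (by rw [card_WW]; omega) G (Sum.inr (Sum.inl 0)) ?_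
    rintro (w | w | w) hw
    · exact (h4 w (Sum.inl 0)).symm
    · exact h3 _ _ (fun hc => hw (by rw [hc]))
    · exact w.elim0) hq hK
  refine not_PV_isol hS _ (Sum.inl (0, 0)) ?_ h2
  rintro (w | w | w) hw
  · exact hw
  · exact hw
  · exact w.elim0

open FA in
/-- the complete bipartite graph with parts `x` and `11 p` -/
theorem codisc11 {n q : ℕ} {P : SimpleGraph (Fin n) → Prop} (hP : GP n q P) (hS : Star n P)
    (p x : ℕ) [Fact p.Prime] (hp : 3 < p) (hx : 0 < x) (hn : x + 11 * p = n)
    (hq : q < 11 * p * x + 55 * p * p) :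
    hv P ![x, 11 * p] (pat [(0, 1)]) = 1 := by
  have h := disc11 hP.dual' hS.dual' p x hp hx hn hq
  rw [hv_eq_zero_iff, PV_dual hP, not_not] at h
  · rw [hv_eq_one_iff]
    refine PV.mono hP (Equiv.refl _) ?_ h
    intro u v huv
    rw [SimpleGraph.compl_adj] at huv
    obtain ⟨h1, h2⟩ := huv
    refine ⟨h1, ?_⟩
    simp only [Equiv.refl_apply]
    obtain ⟨i, a⟩ := u
    obtain ⟨j, b⟩ := v
    by_contra h3
    apply h2
    refine ⟨h1, ?_⟩
    revert h3
    simp only [pat]
    fin_cases i <;> fin_cases j <;> simp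
  · refine ⟨Fintype.equivFinOfCardEq ?_⟩
    rw [Fintype.card_sigma]
    simp [Fin.sum_univ_succ]
    exact hn

open FA in
/-- a graph with all edges between the blocks and the other vertices -/
theorem hubU {n q : ℕ} {P : SimpleGraph (Fin n) → Prop} (hP : GP n q P) (hS : Star n P)
    (p x r : ℕ) [Fact p.Prime] (hp : 3 < p) (hx : 0 < x) (hn : x + r + 11 * p = n)
    (hq : q < 11 * p * x + 55 * p * p) (G : SimpleGraph (WW p x r))
    (h4 : ∀ (u : Fin 11 × ZMod p) (v : ZMod x ⊕ Fin r), G.Adj (Sum.inl u) (Sum.inr v)) :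
    PV P _ G := by
  have : NeZero x := ⟨hx.ne'⟩
  have : NeZero p := ⟨(Fact.out : p.Prime).ne_zero⟩
  have h := codisc11 hP hS p (x + r) hp (by omega) hn
    (lt_of_lt_of_le hq (by nlinarith [Nat.zero_le (11 * p * r)]))
  refine of_hv hP _ _ (clE 1 (fun _ => 0) 0) ?_ _ ?_ h
  · intro i
    rw [sum_clE]
    fin_cases i <;> simp
  · rintro (u | u | u) (v | v | v) huv h1
    · simp [clE, pat] at h1
    · exact h4 _ _
    · exact h4 _ _
    · exact (h4 _ _).symm
    · simp [clE, pat] at h1
    · simp [clE, pat] at h1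
    · exact (h4 _ _).symm
    · simp [clE, pat] at h1
    · simp [clE, pat] at h1

open FA in
/-- **hub fact**: if two disjoint cliques `y`, `r + 11 p` have the property then the second clique
can be replaced by the join of a clique of size `r` and an empty graph of size `11 p` -/
theorem hub11 {n q : ℕ} {P : SimpleGraph (Fin n) → Prop} (hP : GP n q P) (hS : Star n P)
    (p y r : ℕ) [Fact p.Prime] (hp : 3 < p) (hy : 0 < y) (hn : y + r + 11 * p = n)
    (hq : q < 11 * p * y + 55 * p * p)
    (h : hv P ![y, r + 11 * p] (pat [(0, 0), (1, 1)]) = 1) :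
    hv P ![y, r, 11 * p] (pat [(0, 0), (1, 1), (1, 2)]) = 1 := by
  have : NeZero y := ⟨hy.ne'⟩
  have : NeZero p := ⟨(Fact.out : p.Prime).ne_zero⟩
  have hK : PV P _ (GG p y r ⊤ ⊤) := by
    refine of_hv hP _ _ (clE 1 (fun _ => 0) 1) ?_ _ ?_ h
    · intro i
      rw [sum_clE]
      fin_cases i <;> simp [add_comm]
    · rintro (u | u | u) (v | v | v) huv h1
      · exact fun hc => huv (by rw [hc])
      · simp [clE, pat] at h1
      · trivial
      · simp [clE, pat] at h1
      · exact fun hc => huv (by rw [hc])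
      · simp [clE, pat] at h1
      · trivial
      · simp [clE, pat] at h1
      · exact fun hc => huv (by rw [hc])
  have h2 := chain hP p y r (by omega) hy (by omega) ⊤ (fun a b h => by simpa using h)
    (fun G _ h4 => hubU hP hS p y r hp hy hn hq G h4) hq hK
  refine to_hv hP _ _ (clE 2 (fun _ => 0) 1) ?_ _ ?_ h2
  · intro i
    rw [sum_clE]
    fin_cases i <;> simp
  · rintro (u | u | u) (v | v | v) huv
    · exact absurd huv (by simp [GG])
    · exact absurd huv (by simp [GG])
    · simp [clE, pat]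
    · exact absurd huv (by simp [GG])
    · simp [clE, pat]
    · exact absurd huv (by simp [GG])
    · simp [clE, pat]
    · exact absurd huv (by simp [GG])
    · simp [clE, pat]

/-- **hub fact for an arbitrary rotation-invariant graph `H`** -/
theorem hubH {n q : ℕ} {P : SimpleGraph (Fin n) → Prop} (hP : GP n q P) (hS : Star n P)
    (p y r : ℕ) [Fact p.Prime] (hp : 3 < p) (hy : 0 < y) (hn : y + r + 11 * p = n)
    (hq : q < 11 * p * y + 55 * p * p) (H : SimpleGraph (ZMod y))
    (hH : ∀ a b, H.Adj a b → H.Adj (a + 1) (b + 1)) (hK : PV P _ (GG p y r H ⊤)) :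
    PV P _ (GG p y r H ⊥) :=
  chain hP p y r (by omega) hy (by omega) H hH
    (fun G _ h4 => hubU hP hS p y r hp hy hn hq G h4) hq hK

end Pool.Agent.L0h93.Karp.E
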